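import Mathlib

set_option autoImplicit false
open MeasureTheory Filter Topology
open scoped ENNReal

namespace Pool.Agent.Results.MP_37b4fc_an.FullPicture

/-- The measure `dt/t` on `(0,∞)`. -/
noncomputable def mu : Measure ℝ :=
  (volume.restrict (Set.Ioi (0:ℝ))).withDensity (fun t => ENNReal.ofReal t⁻¹)

/-- The K-functional of a couple `A1 ⊂ A0` (the inclusion is `ι`): the infimum of
`‖a0‖ + t ‖a1‖` over all decompositions `a = a0 + ι a1`. -/
noncomputable def KF {A0 A1 : Type} [NormedAddCommGroup A0] [NormedSpace ℂ A0]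
    [NormedAddCommGroup A1] [NormedSpace ℂ A1] (ι : A1 →L[ℂ] A0) (t : ℝ) (a : A0) : ℝ :=
  ⨅ y : A1, (‖a - ι y‖ + t * ‖y‖)

/-- The (possibly infinite) norm of the K-method space with parameters `θ, p`. -/
noncomputable def kNorm {A0 A1 : Type} [NormedAddCommGroup A0] [NormedSpace ℂ A0]
    [NormedAddCommGroup A1] [NormedSpace ℂ A1] (ι : A1 →L[ℂ] A0) (θ : ℝ) (p : ℝ≥0∞)
    (a : A0) : ℝ≥0∞ :=
  eLpNorm (fun t : ℝ => t ^ (-θ) * KF ι t a) p mu

/-- Continuity of `U` from `(A0,A1)_{θ,p;K}` to `(B0,B1)_{θ,p;K}`. -/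
def ContinuousK {A0 A1 B0 B1 : Type} [NormedAddCommGroup A0] [NormedSpace ℂ A0]
    [NormedAddCommGroup A1] [NormedSpace ℂ A1] [NormedAddCommGroup B0] [NormedSpace ℂ B0]
    [NormedAddCommGroup B1] [NormedSpace ℂ B1]
    (ιA : A1 →L[ℂ] A0) (ιB : B1 →L[ℂ] B0) (U : A0 → B0) (θ : ℝ) (p : ℝ≥0∞) : Prop :=
  ∀ a : A0, kNorm ιA θ p a < ∞ → ∀ ε : ℝ≥0∞, 0 < ε → ∃ δ : ℝ≥0∞, 0 < δ ∧
    ∀ b : A0, kNorm ιA θ p b < ∞ → kNorm ιA θ p (b - a) < δ → kNorm ιB θ p (U b - U a) < ε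

lemma mu_ae_pos : ∀ᵐ t ∂mu, 0 < t := by
  have h : ∀ᵐ t ∂(volume.restrict (Set.Ioi (0:ℝ))), 0 < t :=
    ae_restrict_mem measurableSet_Ioi
  exact (withDensity_absolutelyContinuous _ _).ae_le h

lemma mu_Ioo_pos (a b : ℝ) (ha : 0 < a) (hab : a < b) : mu (Set.Ioo a b) ≠ 0 := by
  intro h
  rw [mu, withDensity_apply_eq_zero (by fun_prop)] at h
  rw [Measure.restrict_apply' measurableSet_Ioi] at h
  have h1 : Set.Ioo a b ⊆ {x | ENNReal.ofReal x⁻¹ ≠ 0} ∩ Set.Ioo a b ∩ Set.Ioi 0 := by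
    intro x hx
    have hx0 : 0 < x := ha.trans hx.1
    refine ⟨⟨?_, hx⟩, hx0⟩
    simp only [Set.mem_ofPred_eq, ne_eq, ENNReal.ofReal_eq_zero, not_le]
    positivity
  have h2 := measure_mono_null h1 h
  rw [Real.volume_Ioo, ENNReal.ofReal_eq_zero] at h2
  linarith

section General

variable {A0 A1 B0 B1 : Type} [NormedAddCommGroup A0] [NormedSpace ℂ A0]
    [NormedAddCommGroup A1] [NormedSpace ℂ A1] [NormedAddCommGroup B0] [NormedSpace ℂ B0]
    [NormedAddCommGroup B1] [NormedSpace ℂ B1]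

lemma KF_bdd (ι : A1 →L[ℂ] A0) (t : ℝ) (ht : 0 ≤ t) (x : A0) :
    BddBelow (Set.range (fun y : A1 => ‖x - ι y‖ + t * ‖y‖)) := by
  refine ⟨0, ?_⟩
  rintro _ ⟨y, rfl⟩
  positivity

lemma KF_le (ι : A1 →L[ℂ] A0) (t : ℝ) (ht : 0 ≤ t) (x : A0) (y : A1) :
    KF ι t x ≤ ‖x - ι y‖ + t * ‖y‖ :=
  ciInf_le (KF_bdd ι t ht x) y

lemma KF_nonneg (ι : A1 →L[ℂ] A0) (t : ℝ) (ht : 0 ≤ t) (x : A0) : 0 ≤ KF ι t x :=
  Real.iInf_nonneg (fun y => by positivity)

lemma KF_le_norm (ι : A1 →L[ℂ] A0) (t : ℝ) (ht : 0 ≤ t) (x : A0) : KF ι t x ≤ ‖x‖ := by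
  have h := KF_le ι t ht x 0
  rwa [map_zero, sub_zero, norm_zero, mul_zero, add_zero] at h

lemma KF_add (ι : A1 →L[ℂ] A0) (t : ℝ) (ht : 0 ≤ t) (x y : A0) :
    KF ι t (x + y) ≤ KF ι t x + KF ι t y := by
  have h1 : ∀ u v : A1, KF ι t (x + y) ≤ (‖x - ι u‖ + t * ‖u‖) + (‖y - ι v‖ + t * ‖v‖) := by
    intro u v
    have h := KF_le ι t ht (x + y) (u + v)
    have h2 : ‖x + y - ι (u + v)‖ ≤ ‖x - ι u‖ + ‖y - ι v‖ := by
      rw [map_add, show x + y - (ι u + ι v) = (x - ι u) + (y - ι v) by abel]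
      exact norm_add_le _ _
    have h3 : t * ‖u + v‖ ≤ t * ‖u‖ + t * ‖v‖ := by
      rw [← mul_add]
      exact mul_le_mul_of_nonneg_left (norm_add_le _ _) ht
    linarith
  have h2 : ∀ v : A1, KF ι t (x + y) - (‖y - ι v‖ + t * ‖v‖) ≤ KF ι t x := by
    intro v
    refine le_ciInf (fun u => ?_)
    have := h1 u v
    linarith
  have h3 : KF ι t (x + y) - KF ι t x ≤ KF ι t y := by
    refine le_ciInf (fun v => ?_)
    have := h2 v
    linarith
  linarith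

lemma KF_neg (ι : A1 →L[ℂ] A0) (t : ℝ) (ht : 0 ≤ t) (x : A0) : KF ι t (-x) ≤ KF ι t x := by
  refine le_ciInf (fun y => ?_)
  have h := KF_le ι t ht (-x) (-y)
  rw [map_neg, norm_neg, show -x - -ι y = -(x - ι y) by abel, norm_neg] at h
  exact h

lemma KF_lip (ιA : A1 →L[ℂ] A0) (ιB : B1 →L[ℂ] B0) (U : A0 → B0) (V : A1 → B1) (M : ℝ)
    (hM : 0 ≤ M) (h0 : ∀ a b : A0, ‖U a - U b‖ ≤ M * ‖a - b‖)
    (hUV : ∀ x : A1, U (ιA x) = ιB (V x)) (h1 : ∀ x : A1, ‖V x‖ ≤ M * ‖x‖)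
    (t : ℝ) (ht : 0 ≤ t) (b : A0) : KF ιB t (U b) ≤ M * KF ιA t b := by
  rw [KF, KF, Real.mul_iInf_of_nonneg hM]
  refine le_ciInf (fun y => ?_)
  have h := KF_le ιB t ht (U b) (V y)
  rw [← hUV] at h
  have h2 := h0 b (ιA y)
  have h3 : t * ‖V y‖ ≤ t * (M * ‖y‖) := mul_le_mul_of_nonneg_left (h1 y) ht
  have h4 : KF ιB t (U b) = ⨅ y : B1, (‖U b - ιB y‖ + t * ‖y‖) := rfl
  rw [← h4]
  nlinarith

lemma KF_mono (ι : A1 →L[ℂ] A0) (x : A0) : Monotone (fun t : ℝ => KF ι (max t 0) x) := by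
  intro s t hst
  refine ciInf_mono (KF_bdd ι _ (le_max_right _ _) x) (fun y => ?_)
  have : max s 0 ≤ max t 0 := max_le_max hst le_rfl
  have := mul_le_mul_of_nonneg_right this (norm_nonneg y)
  linarith

lemma KF_meas (ι : A1 →L[ℂ] A0) (x : A0) : AEMeasurable (fun t : ℝ => KF ι t x) mu := by
  refine ⟨fun t : ℝ => KF ι (max t 0) x, (KF_mono ι x).measurable, ?_⟩
  filter_upwards [mu_ae_pos] with t ht
  rw [max_eq_left ht.le]

lemma rpow_meas (θ : ℝ) : Measurable (fun t : ℝ => t ^ (-θ)) := by fun_prop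

lemma kfun_meas (ι : A1 →L[ℂ] A0) (x : A0) (θ : ℝ) :
    AEStronglyMeasurable (fun t : ℝ => t ^ (-θ) * KF ι t x) mu :=
  ((rpow_meas θ).aemeasurable.mul (KF_meas ι x)).aestronglyMeasurable

/-- lower bound for the K-functional -/
lemma KF_lower (ι : A1 →L[ℂ] A0) (t : ℝ) (ht : 0 < t) (x : A0) :
    (1 / (1 + ‖ι‖)) * min 1 t * ‖x‖ ≤ KF ι t x := by
  refine le_ciInf (fun y => ?_)
  have hN : 0 ≤ ‖ι‖ := norm_nonneg _
  have h1 : ‖x‖ ≤ ‖x - ι y‖ + ‖ι‖ * ‖y‖ := by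
    calc ‖x‖ = ‖(x - ι y) + ι y‖ := by rw [sub_add_cancel]
      _ ≤ ‖x - ι y‖ + ‖ι y‖ := norm_add_le _ _
      _ ≤ ‖x - ι y‖ + ‖ι‖ * ‖y‖ := by
          have := ι.le_opNorm y
          linarith
  have hm0 : 0 ≤ min 1 t := le_min zero_le_one ht.le
  have hm1 : min 1 t ≤ 1 := min_le_left _ _
  have hmt : min 1 t ≤ t := min_le_right _ _
  have hx : 0 ≤ ‖x - ι y‖ := norm_nonneg _
  have hy : 0 ≤ ‖y‖ := norm_nonneg _
  have h2 : min 1 t * ‖x‖ ≤ (1 + ‖ι‖) * (‖x - ι y‖ + t * ‖y‖) := by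
    have h3 : min 1 t * ‖x‖ ≤ min 1 t * ‖x - ι y‖ + min 1 t * (‖ι‖ * ‖y‖) := by
      have := mul_le_mul_of_nonneg_left h1 hm0
      linarith
    have h4 : min 1 t * ‖x - ι y‖ ≤ 1 * ‖x - ι y‖ := mul_le_mul_of_nonneg_right hm1 hx
    have h5 : min 1 t * (‖ι‖ * ‖y‖) ≤ t * (‖ι‖ * ‖y‖) :=
      mul_le_mul_of_nonneg_right hmt (mul_nonneg hN hy)
    have h6 : 0 ≤ ‖ι‖ * ‖x - ι y‖ := mul_nonneg hN hx
    have h7 : 0 ≤ t * ‖y‖ := mul_nonneg ht.le hy
    nlinarith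
  have h8 : (1 / (1 + ‖ι‖)) * (min 1 t * ‖x‖)
      ≤ (1 / (1 + ‖ι‖)) * ((1 + ‖ι‖) * (‖x - ι y‖ + t * ‖y‖)) :=
    mul_le_mul_of_nonneg_left h2 (by positivity)
  have h9 : (1 / (1 + ‖ι‖)) * ((1 + ‖ι‖) * (‖x - ι y‖ + t * ‖y‖)) = ‖x - ι y‖ + t * ‖y‖ := by
    field_simp
  rw [h9] at h8
  linarith

/-- the embedding `A_{θ,p} ⊂ A_0` -/
lemma norm_lt_of_kNorm (ι : A1 →L[ℂ] A0) (θ : ℝ) (p : ℝ≥0∞) (hp : 1 ≤ p) (d : ℝ) (hd : 0 < d) :
    ∃ δ : ℝ≥0∞, 0 < δ ∧ ∀ x : A0, kNorm ι θ p x < δ → ‖x‖ < d := by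
  set f : ℝ → ℝ := fun t => t ^ (-θ) * ((1 / (1 + ‖ι‖)) * min 1 t) with hf
  have hfm : AEStronglyMeasurable f mu := by
    apply Measurable.aestronglyMeasurable
    rw [hf]
    fun_prop
  have hp0 : p ≠ 0 := (lt_of_lt_of_le one_pos hp).ne'
  have hN : 0 ≤ ‖ι‖ := norm_nonneg _
  have hκ : eLpNorm f p mu ≠ 0 := by
    rw [Ne, eLpNorm_eq_zero_iff hfm hp0]
    intro h
    have h1 : ∀ᵐ t ∂mu, False := by
      filter_upwards [h, mu_ae_pos] with t h2 h3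
      have h4 : 0 < f t := by
        rw [hf]
        have : 0 < min 1 t := lt_min one_pos h3
        have := Real.rpow_pos_of_pos h3 (-θ)
        positivity
      rw [h2] at h4
      exact lt_irrefl _ h4
    have h5 := mu_Ioo_pos 1 2 one_pos (by norm_num)
    apply h5
    refine measure_mono_null (Set.subset_univ _) ?_
    rw [ae_iff] at h1
    simpa using h1
  set κ : ℝ≥0∞ := min (eLpNorm f p mu) 1 with hκdef
  have hκ0 : κ ≠ 0 := by
    rw [hκdef]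
    exact (lt_min (pos_iff_ne_zero.2 hκ) one_pos).ne'
  have hκt : κ ≠ ∞ := ne_top_of_le_ne_top ENNReal.one_ne_top (min_le_right _ _)
  refine ⟨κ * ENNReal.ofReal d, ?_, fun x hx => ?_⟩
  · exact ENNReal.mul_pos hκ0 (by simpa using hd)
  · by_contra hcon
    push Not at hcon
    have h1 : eLpNorm (fun t => ‖x‖ * f t) p mu ≤ kNorm ι θ p x := by
      refine eLpNorm_mono_ae ?_
      filter_upwards [mu_ae_pos] with t ht
      have h2 : 0 < t ^ (-θ) := Real.rpow_pos_of_pos ht _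
      have h3 : 0 < min 1 t := lt_min one_pos ht
      have h4 := KF_nonneg ι t ht.le x
      rw [Real.norm_of_nonneg (mul_nonneg h2.le h4), Real.norm_of_nonneg (by rw [hf]; positivity)]
      have h5 := mul_le_mul_of_nonneg_left (KF_lower ι t ht x) h2.le
      rw [hf]
      calc ‖x‖ * (t ^ (-θ) * ((1 / (1 + ‖ι‖)) * min 1 t))
          = t ^ (-θ) * ((1 / (1 + ‖ι‖)) * min 1 t * ‖x‖) := by ring
        _ ≤ _ := h5
    have h2 : eLpNorm (fun t => ‖x‖ * f t) p mu = ENNReal.ofReal ‖x‖ * eLpNorm f p mu := by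
      have h3 : (fun t => ‖x‖ * f t) = ‖x‖ • f := by
        ext t; simp [smul_eq_mul]
      rw [h3, eLpNorm_const_smul, Real.enorm_of_nonneg (norm_nonneg x)]
    rw [h2] at h1
    have h4 : κ * ENNReal.ofReal d ≤ ENNReal.ofReal ‖x‖ * eLpNorm f p mu := by
      rw [mul_comm]
      exact mul_le_mul' (ENNReal.ofReal_le_ofReal hcon) (min_le_left _ _)
    exact absurd hx (not_lt.2 (h4.trans h1))

/-- the dominated convergence part -/
lemma small_min (ι : A1 →L[ℂ] A0) (θ : ℝ) (p : ℝ≥0∞) (hp : 1 ≤ p) (hpt : p ≠ ∞) (M : ℝ)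
    (hM : 0 ≤ M) (a : A0) (ha : kNorm ι θ p a < ∞) (ε : ℝ≥0∞) (hε : 0 < ε) :
    ∃ d : ℝ, 0 < d ∧
      eLpNorm (fun t : ℝ => t ^ (-θ) * min (M * d) (2 * M * KF ι t a)) p mu < ε := by
  have hp0 : p ≠ 0 := (lt_of_lt_of_le one_pos hp).ne'
  set q : ℝ := p.toReal with hq
  have hq0 : 0 < q := ENNReal.toReal_pos hp0 hpt
  set g : ℕ → ℝ → ℝ := fun n t => t ^ (-θ) * min (M * (1 / ((n:ℝ) + 1))) (2 * M * KF ι t a)
    with hg
  have hgm : ∀ n, AEStronglyMeasurable (g n) mu := by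
    intro n
    rw [hg]
    exact ((rpow_meas θ).aemeasurable.mul
      (aemeasurable_const.min ((KF_meas ι a).const_mul _))).aestronglyMeasurable
  set F : ℝ → ℝ := fun t => 2 * M * (t ^ (-θ) * KF ι t a) with hF
  have hFfin : eLpNorm F p mu < ∞ := by
    have h3 : F = (2 * M) • (fun t : ℝ => t ^ (-θ) * KF ι t a) := by
      ext t; simp [hF, smul_eq_mul]
    rw [h3, eLpNorm_const_smul]
    exact ENNReal.mul_lt_top enorm_lt_top ha
  have hlim : Tendsto (fun n => ∫⁻ t, ‖g n t‖ₑ ^ q ∂mu) atTop (𝓝 (∫⁻ _, 0 ∂mu)) := by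
    refine tendsto_lintegral_of_dominated_convergence' (fun t => ‖F t‖ₑ ^ q) ?_ ?_ ?_ ?_
    · intro n
      exact (hgm n).enorm.pow_const q
    · intro n
      filter_upwards [mu_ae_pos] with t ht
      have h2 : 0 < t ^ (-θ) := Real.rpow_pos_of_pos ht _
      have h4 := KF_nonneg ι t ht.le a
      refine ENNReal.rpow_le_rpow ?_ hq0.le
      rw [enorm_le_iff_norm_le]
      have h5 : 0 ≤ min (M * (1 / ((n:ℝ) + 1))) (2 * M * KF ι t a) :=
        le_min (by positivity) (by positivity)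
      rw [Real.norm_of_nonneg (mul_nonneg h2.le h5), Real.norm_of_nonneg (by rw [hF]; positivity)]
      rw [hF]
      calc t ^ (-θ) * min (M * (1 / ((n:ℝ) + 1))) (2 * M * KF ι t a)
          ≤ t ^ (-θ) * (2 * M * KF ι t a) := mul_le_mul_of_nonneg_left (min_le_right _ _) h2.le
        _ = _ := by ring
    · exact (lintegral_rpow_enorm_lt_top_of_eLpNorm_lt_top hp0 hpt hFfin).ne
    · filter_upwards [mu_ae_pos] with t ht
      have h2 : 0 < t ^ (-θ) := Real.rpow_pos_of_pos ht _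
      have h4 := KF_nonneg ι t ht.le a
      have h6 : Tendsto (fun n : ℕ => g n t) atTop (𝓝 0) := by
        have h7 : Tendsto (fun n : ℕ => t ^ (-θ) * (M * (1 / ((n:ℝ) + 1)))) atTop (𝓝 0) := by
          have := (tendsto_one_div_add_atTop_nhds_zero_nat (𝕜 := ℝ)).const_mul (t ^ (-θ) * M)
          rw [mul_zero] at this
          refine this.congr (fun n => by ring)
        refine squeeze_zero (fun n => ?_) (fun n => ?_) h7
        · exact mul_nonneg h2.le (le_min (by positivity) (by positivity))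
        · exact mul_le_mul_of_nonneg_left (min_le_left _ _) h2.le
      have h8 : Tendsto (fun n : ℕ => ‖g n t‖ₑ) atTop (𝓝 0) := by
        have := h6.enorm
        rwa [enorm_zero] at this
      have h9 := h8.ennrpow_const q
      rwa [ENNReal.zero_rpow_of_pos hq0] at h9
  rw [lintegral_zero] at hlim
  have hlim2 : Tendsto (fun n => eLpNorm (g n) p mu) atTop (𝓝 0) := by
    have h := hlim.ennrpow_const (1 / q)
    rw [ENNReal.zero_rpow_of_pos (by positivity)] at h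
    refine h.congr (fun n => ?_)
    rw [eLpNorm_eq_lintegral_rpow_enorm_toReal hp0 hpt]
  obtain ⟨n, hn⟩ := ((tendsto_order.1 hlim2).2 ε hε).exists
  exact ⟨1 / ((n:ℝ) + 1), by positivity, hn⟩

/-- For `p < ∞` the hypothesis (H) alone gives continuity. -/
theorem continuous_of_lt_top (ιA : A1 →L[ℂ] A0) (ιB : B1 →L[ℂ] B0)
    (U : A0 → B0) (V : A1 → B1) (M0 M1 : ℝ)
    (h0 : ∀ a b : A0, ‖U a - U b‖ ≤ M0 * ‖a - b‖)
    (hUV : ∀ x : A1, U (ιA x) = ιB (V x)) (h1 : ∀ x : A1, ‖V x‖ ≤ M1 * ‖x‖)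
    (θ : ℝ) (p : ℝ≥0∞) (hp : 1 ≤ p) (hpt : p ≠ ∞) : ContinuousK ιA ιB U θ p := by
  intro a ha ε hε
  set M : ℝ := |M0| + |M1| + 1 with hMdef
  have hM : 0 < M := by positivity
  have h0' : ∀ a b : A0, ‖U a - U b‖ ≤ M * ‖a - b‖ := by
    intro a b
    refine (h0 a b).trans (mul_le_mul_of_nonneg_right ?_ (norm_nonneg _))
    have := le_abs_self M0
    have := abs_nonneg M1
    linarith
  have h1' : ∀ x : A1, ‖V x‖ ≤ M * ‖x‖ := by
    intro x
    refine (h1 x).trans (mul_le_mul_of_nonneg_right ?_ (norm_nonneg _))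
    have := le_abs_self M1
    have := abs_nonneg M0
    linarith
  -- split ε
  obtain ⟨e, he0, he⟩ : ∃ e : ℝ≥0∞, 0 < e ∧ e + e ≤ ε ∧ e ≠ ∞ := by
    by_cases hεt : ε = ∞
    · exact ⟨1, one_pos, by rw [hεt]; exact le_top, ENNReal.one_ne_top⟩
    · exact ⟨ε / 2, ENNReal.half_pos hε.ne', (ENNReal.add_halves ε).le,
        (ENNReal.half_lt_self hε.ne' hεt).ne_top⟩
  obtain ⟨hee, het⟩ := he
  obtain ⟨d, hd, hsmall⟩ := small_min ιA θ p hp hpt M hM.le a ha e he0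
  obtain ⟨δ1, hδ1, hδ1'⟩ := norm_lt_of_kNorm ιA θ p hp d hd
  have hMe : 0 < ENNReal.ofReal M := by simpa using hM
  refine ⟨min δ1 (e / ENNReal.ofReal M), lt_min hδ1 (ENNReal.div_pos he0.ne' ENNReal.ofReal_ne_top),
    fun b hb hba => ?_⟩
  have hnorm : ‖b - a‖ < d := hδ1' _ (lt_of_lt_of_le hba (min_le_left _ _))
  have hsec : ENNReal.ofReal M * kNorm ιA θ p (b - a) ≤ e := by
    have h := (lt_of_lt_of_le hba (min_le_right _ _)).le
    calc ENNReal.ofReal M * kNorm ιA θ p (b - a) ≤ ENNReal.ofReal M * (e / ENNReal.ofReal M) :=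
          mul_le_mul' le_rfl h
      _ ≤ e := ENNReal.mul_div_le
  have hkey : kNorm ιB θ p (U b - U a)
      ≤ eLpNorm ((fun t : ℝ => t ^ (-θ) * min (M * d) (2 * M * KF ιA t a))
        + (M • (fun t : ℝ => t ^ (-θ) * KF ιA t (b - a)))) p mu := by
    refine eLpNorm_mono_ae ?_
    filter_upwards [mu_ae_pos] with t ht
    have h2 : 0 < t ^ (-θ) := Real.rpow_pos_of_pos ht _
    have hKa := KF_nonneg ιA t ht.le a
    have hKba := KF_nonneg ιA t ht.le (b - a)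
    have hKU := KF_nonneg ιB t ht.le (U b - U a)
    have hmin : 0 ≤ min (M * d) (2 * M * KF ιA t a) := le_min (by positivity) (by positivity)
    rw [Real.norm_of_nonneg (mul_nonneg h2.le hKU)]
    simp only [Pi.add_apply, Pi.smul_apply, smul_eq_mul]
    rw [Real.norm_of_nonneg (by positivity)]
    have hA : KF ιB t (U b - U a) ≤ M * d := by
      refine (KF_le_norm ιB t ht.le _).trans ((h0' b a).trans ?_)
      exact mul_le_mul_of_nonneg_left hnorm.le hM.le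
    have hB : KF ιB t (U b - U a) ≤ 2 * M * KF ιA t a + M * KF ιA t (b - a) := by
      have e1 : KF ιB t (U b - U a) ≤ KF ιB t (U b) + KF ιB t (U a) := by
        rw [sub_eq_add_neg]
        exact (KF_add ιB t ht.le _ _).trans (by
          have := KF_neg ιB t ht.le (U a)
          linarith)
      have e2 := KF_lip ιA ιB U V M hM.le h0' hUV h1' t ht.le b
      have e3 := KF_lip ιA ιB U V M hM.le h0' hUV h1' t ht.le a
      have e4 : KF ιA t b ≤ KF ιA t a + KF ιA t (b - a) := by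
        have := KF_add ιA t ht.le a (b - a)
        rwa [add_sub_cancel] at this
      have e5 := mul_le_mul_of_nonneg_left e4 hM.le
      linarith
    have hC : KF ιB t (U b - U a) ≤ min (M * d) (2 * M * KF ιA t a) + M * KF ιA t (b - a) := by
      rcases min_choice (M * d) (2 * M * KF ιA t a) with h | h
      · rw [h]
        have : 0 ≤ M * KF ιA t (b - a) := by positivity
        linarith
      · rw [h]
        exact hB
    calc t ^ (-θ) * KF ιB t (U b - U a)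
        ≤ t ^ (-θ) * (min (M * d) (2 * M * KF ιA t a) + M * KF ιA t (b - a)) :=
          mul_le_mul_of_nonneg_left hC h2.le
      _ = _ := by ring
  have hm1 : AEStronglyMeasurable
      (fun t : ℝ => t ^ (-θ) * min (M * d) (2 * M * KF ιA t a)) mu :=
    ((rpow_meas θ).aemeasurable.mul
      (aemeasurable_const.min ((KF_meas ιA a).const_mul _))).aestronglyMeasurable
  have hm2 : AEStronglyMeasurable (M • (fun t : ℝ => t ^ (-θ) * KF ιA t (b - a))) mu :=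
    (kfun_meas ιA (b - a) θ).const_smul M
  calc kNorm ιB θ p (U b - U a)
      ≤ _ := hkey
    _ ≤ _ := eLpNorm_add_le hm1 hm2 hp
    _ < e + e := by
        refine ENNReal.add_lt_add_of_lt_of_le ?_ hsmall ?_
        · rw [eLpNorm_const_smul, Real.enorm_of_nonneg hM.le]
          exact ne_top_of_le_ne_top het hsec
        · rw [eLpNorm_const_smul, Real.enorm_of_nonneg hM.le]
          exact hsec
    _ ≤ ε := hee

end General

/-- The space of complex null sequences with the sup norm. -/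
abbrev C0 : Type := ZeroAtInftyContinuousMap ℕ ℂ

lemma c0_tendsto (x : C0) : Filter.Tendsto (fun k => x k) Filter.atTop (nhds 0) := by
  have h := x.zero_at_infty'
  rw [Filter.cocompact_eq_cofinite, Nat.cofinite_eq_atTop] at h
  exact h

lemma c0_norm_le (x : C0) {C : ℝ} (hC : 0 ≤ C) : ‖x‖ ≤ C ↔ ∀ k, ‖x k‖ ≤ C := by
  rw [← ZeroAtInftyContinuousMap.norm_toBCF_eq_norm, BoundedContinuousFunction.norm_le hC]
  rfl

lemma c0_coord_le (x : C0) (k : ℕ) : ‖x k‖ ≤ ‖x‖ :=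
  (c0_norm_le x (norm_nonneg x)).1 le_rfl k

/-- Build a null sequence. -/
noncomputable def mk (f : ℕ → ℂ) (h : Filter.Tendsto f Filter.atTop (nhds 0)) : C0 where
  toFun := f
  continuous_toFun := continuous_of_discreteTopology
  zero_at_infty' := by
    rw [Filter.cocompact_eq_cofinite, Nat.cofinite_eq_atTop]
    exact h

@[simp] lemma mk_apply (f : ℕ → ℂ) (h : Filter.Tendsto f Filter.atTop (nhds 0)) (k : ℕ) :
    mk f h k = f k := rfl

lemma wt_pos (k : ℕ) : (0:ℝ) < (1/4:ℝ)^k := by positivity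

lemma wt_le_one (k : ℕ) : (1/4:ℝ)^k ≤ 1 := pow_le_one₀ (by norm_num) (by norm_num)

lemma iota_tendsto (y : C0) :
    Filter.Tendsto (fun k => (((1/4:ℝ)^k : ℝ) : ℂ) * y k) Filter.atTop (nhds 0) := by
  have h := c0_tendsto y
  rw [tendsto_zero_iff_norm_tendsto_zero] at h ⊢
  refine squeeze_zero (fun k => norm_nonneg _) (fun k => ?_) h
  rw [norm_mul, Complex.norm_real, Real.norm_of_nonneg (wt_pos k).le]
  exact mul_le_of_le_one_left (norm_nonneg _) (wt_le_one k)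

/-- The inclusion, as a linear map: multiplication by `4^{-k}`. -/
noncomputable def iotaL : C0 →ₗ[ℂ] C0 where
  toFun y := mk (fun k => (((1/4:ℝ)^k : ℝ) : ℂ) * y k) (iota_tendsto y)
  map_add' x y := by
    ext k
    simp [mul_add]
  map_smul' c y := by
    ext k
    simp
    ring

noncomputable def iota : C0 →L[ℂ] C0 :=
  iotaL.mkContinuous 1 (by
    intro y
    rw [one_mul, c0_norm_le _ (norm_nonneg _)]
    intro k
    show ‖(((1/4:ℝ)^k : ℝ) : ℂ) * y k‖ ≤ ‖y‖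
    rw [norm_mul, Complex.norm_real, Real.norm_of_nonneg (wt_pos k).le]
    exact (mul_le_of_le_one_left (norm_nonneg _) (wt_le_one k)).trans (c0_coord_le y k))

@[simp] lemma iota_apply (y : C0) (k : ℕ) : iota y k = (((1/4:ℝ)^k : ℝ) : ℂ) * y k := rfl

lemma iota_injective : Function.Injective iota := by
  intro x y h
  ext k
  have h1 : iota x k = iota y k := by rw [h]
  rw [iota_apply, iota_apply] at h1
  have h2 : (((1/4:ℝ)^k : ℝ) : ℂ) ≠ 0 := by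
    rw [Complex.ofReal_ne_zero]
    exact (wt_pos k).ne'
  exact mul_left_cancel₀ h2 h1

lemma U_tendsto (x : C0) :
    Filter.Tendsto (fun k => ((min ‖x k‖ ‖x 0‖ : ℝ) : ℂ)) Filter.atTop (nhds 0) := by
  have h := c0_tendsto x
  rw [tendsto_zero_iff_norm_tendsto_zero] at h ⊢
  refine squeeze_zero (fun k => norm_nonneg _) (fun k => ?_) h
  rw [Complex.norm_real, Real.norm_of_nonneg (le_min (norm_nonneg _) (norm_nonneg _))]
  exact min_le_left _ _

/-- The nonlinear operator. -/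
noncomputable def U (x : C0) : C0 := mk (fun k => ((min ‖x k‖ ‖x 0‖ : ℝ) : ℂ)) (U_tendsto x)

lemma V_tendsto (y : C0) :
    Filter.Tendsto (fun k => ((min ‖y k‖ ((4:ℝ)^k * ‖y 0‖) : ℝ) : ℂ)) Filter.atTop (nhds 0) := by
  have h := c0_tendsto y
  rw [tendsto_zero_iff_norm_tendsto_zero] at h ⊢
  refine squeeze_zero (fun k => norm_nonneg _) (fun k => ?_) h
  rw [Complex.norm_real, Real.norm_of_nonneg (le_min (norm_nonneg _) (by positivity))]
  exact min_le_left _ _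

/-- The nonlinear operator on the smaller space, in the coordinates of the smaller space. -/
noncomputable def V (y : C0) : C0 :=
  mk (fun k => ((min ‖y k‖ ((4:ℝ)^k * ‖y 0‖) : ℝ) : ℂ)) (V_tendsto y)

@[simp] lemma U_apply (x : C0) (k : ℕ) : U x k = ((min ‖x k‖ ‖x 0‖ : ℝ) : ℂ) := rfl

@[simp] lemma V_apply (y : C0) (k : ℕ) :
    V y k = ((min ‖y k‖ ((4:ℝ)^k * ‖y 0‖) : ℝ) : ℂ) := rfl

lemma U_lip (a b : C0) : ‖U a - U b‖ ≤ ‖a - b‖ := by
  rw [c0_norm_le _ (norm_nonneg _)]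
  intro k
  show ‖((min ‖a k‖ ‖a 0‖ : ℝ) : ℂ) - ((min ‖b k‖ ‖b 0‖ : ℝ) : ℂ)‖ ≤ ‖a - b‖
  rw [← Complex.ofReal_sub, Complex.norm_real, Real.norm_eq_abs]
  refine (abs_min_sub_min_le_max _ _ _ _).trans ?_
  refine max_le ?_ ?_
  · refine (abs_norm_sub_norm_le _ _).trans ?_
    exact c0_coord_le (a - b) k
  · refine (abs_norm_sub_norm_le _ _).trans ?_
    exact c0_coord_le (a - b) 0

lemma UV (x : C0) : U (iota x) = iota (V x) := by
  ext k
  rw [U_apply, iota_apply, iota_apply, iota_apply, V_apply]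
  rw [← Complex.ofReal_mul]
  congr 1
  rw [norm_mul, norm_mul, Complex.norm_real, Complex.norm_real,
    Real.norm_of_nonneg (wt_pos k).le, Real.norm_of_nonneg (wt_pos 0).le,
    mul_min_of_nonneg _ _ (wt_pos k).le]
  congr 1
  rw [← mul_assoc, ← mul_pow]
  norm_num

lemma V_bound (x : C0) : ‖V x‖ ≤ ‖x‖ := by
  rw [c0_norm_le _ (norm_nonneg _)]
  intro k
  rw [V_apply, Complex.norm_real, Real.norm_of_nonneg (le_min (norm_nonneg _) (by positivity))]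
  exact (min_le_left _ _).trans (c0_coord_le x k)

lemma V_cont : Continuous V := by
  rw [Metric.continuous_iff]
  intro y ε hε
  have h := c0_tendsto y
  rw [Metric.tendsto_atTop] at h
  obtain ⟨N, hN⟩ := h (ε/4) (by positivity)
  refine ⟨ε/4 * (1/4:ℝ)^N, by positivity, fun z hz => ?_⟩
  rw [dist_eq_norm] at hz ⊢
  refine lt_of_le_of_lt ((c0_norm_le _ (by positivity : (0:ℝ) ≤ 3*(ε/4))).2 ?_) (by linarith)
  intro k
  have hw : (1/4:ℝ)^N ≤ 1 := wt_le_one N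
  have hd1 : ε/4 * (1/4:ℝ)^N ≤ ε/4 := mul_le_of_le_one_right (by positivity) hw
  have hzk : ‖z k - y k‖ ≤ ε/4 * (1/4:ℝ)^N := (c0_coord_le (z - y) k).trans hz.le
  have hz0 : ‖z 0 - y 0‖ ≤ ε/4 * (1/4:ℝ)^N := (c0_coord_le (z - y) 0).trans hz.le
  show ‖((min ‖z k‖ ((4:ℝ)^k * ‖z 0‖) : ℝ) : ℂ) - ((min ‖y k‖ ((4:ℝ)^k * ‖y 0‖) : ℝ) : ℂ)‖ ≤ 3*(ε/4)
  rw [← Complex.ofReal_sub, Complex.norm_real, Real.norm_eq_abs]
  by_cases hk : N ≤ k
  · have h1 : ‖y k‖ < ε/4 := by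
      have := hN k hk
      rwa [dist_zero_right] at this
    have h2 : ‖z k‖ ≤ ε/4 + ε/4 := by
      calc ‖z k‖ = ‖(z k - y k) + y k‖ := by rw [sub_add_cancel]
        _ ≤ ‖z k - y k‖ + ‖y k‖ := norm_add_le _ _
        _ ≤ ε/4 + ε/4 := by linarith
    have h3 : 0 ≤ min ‖z k‖ ((4:ℝ)^k * ‖z 0‖) := le_min (norm_nonneg _) (by positivity)
    have h4 : 0 ≤ min ‖y k‖ ((4:ℝ)^k * ‖y 0‖) := le_min (norm_nonneg _) (by positivity)
    have h5 : min ‖z k‖ ((4:ℝ)^k * ‖z 0‖) ≤ ‖z k‖ := min_le_left _ _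
    have h6 : min ‖y k‖ ((4:ℝ)^k * ‖y 0‖) ≤ ‖y k‖ := min_le_left _ _
    rw [abs_le]
    constructor <;> linarith
  · push Not at hk
    refine (abs_min_sub_min_le_max _ _ _ _).trans (max_le ?_ ?_)
    · refine (abs_norm_sub_norm_le _ _).trans ?_
      linarith
    · rw [← mul_sub, abs_mul, abs_of_nonneg (by positivity : (0:ℝ) ≤ (4:ℝ)^k)]
      have h1 : |‖z 0‖ - ‖y 0‖| ≤ ε/4 * (1/4:ℝ)^N := (abs_norm_sub_norm_le _ _).trans hz0
      have h2 : (4:ℝ)^k ≤ (4:ℝ)^N := pow_le_pow_right₀ (by norm_num) hk.le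
      calc (4:ℝ)^k * |‖z 0‖ - ‖y 0‖| ≤ (4:ℝ)^N * (ε/4 * (1/4:ℝ)^N) := by
            apply mul_le_mul h2 h1 (abs_nonneg _) (by positivity)
        _ = ε/4 * ((4:ℝ)^N * (1/4:ℝ)^N) := by ring
        _ = ε/4 := by rw [← mul_pow]; norm_num
        _ ≤ 3*(ε/4) := by linarith

lemma K_ge (t : ℝ) (x : C0) (k : ℕ) (h : (1/4:ℝ)^k ≤ t) : ‖x k‖ ≤ KF iota t x := by
  refine le_ciInf (fun y => ?_)
  have h1 : ‖(x - iota y) k‖ ≤ ‖x - iota y‖ := c0_coord_le _ k
  have h2 : ‖y k‖ ≤ ‖y‖ := c0_coord_le _ k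
  have h3 : (x - iota y) k = x k - (((1/4:ℝ)^k : ℝ) : ℂ) * y k := rfl
  rw [h3] at h1
  have h4 : ‖x k‖ ≤ ‖x k - (((1/4:ℝ)^k : ℝ) : ℂ) * y k‖ + ‖(((1/4:ℝ)^k : ℝ) : ℂ) * y k‖ := by
    calc ‖x k‖ = ‖(x k - (((1/4:ℝ)^k : ℝ) : ℂ) * y k) + (((1/4:ℝ)^k : ℝ) : ℂ) * y k‖ := by
          rw [sub_add_cancel]
      _ ≤ _ := norm_add_le _ _
  rw [norm_mul, Complex.norm_real, Real.norm_of_nonneg (wt_pos k).le] at h4
  have h5 : (1/4:ℝ)^k * ‖y k‖ ≤ t * ‖y‖ := mul_le_mul h h2 (norm_nonneg _) ((wt_pos k).le.trans h)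
  linarith

lemma trunc_tendsto (x : C0) (N : ℕ) :
    Filter.Tendsto (fun k => if k < N then (((4:ℝ)^k : ℝ) : ℂ) * x k else 0)
      Filter.atTop (nhds 0) := by
  refine tendsto_const_nhds.congr' ?_
  filter_upwards [Filter.eventually_ge_atTop N] with k hk
  rw [if_neg (by omega)]

/-- Upper bound for the K-functional of a sequence bounded by `4^{-kθ}`. -/
lemma K_upper (θ : ℝ) (hθ0 : 0 < θ) (hθ1 : θ < 1) (x : C0) (hx : ∀ k, ‖x k‖ ≤ ((1/4:ℝ)^k) ^ θ)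
    (t : ℝ) (ht : 0 < t) : KF iota t x ≤ 2 * t ^ θ := by
  have hsq : 0 < t ^ θ := Real.rpow_pos_of_pos ht θ
  by_cases h1 : 1 ≤ t
  · have h2 : KF iota t x ≤ ‖x‖ := KF_le_norm iota t ht.le x
    have h3 : ‖x‖ ≤ 1 := (c0_norm_le x zero_le_one).2 (fun k => (hx k).trans
      (Real.rpow_le_one (wt_pos k).le (wt_le_one k) hθ0.le))
    have h4 : 1 ≤ t ^ θ := Real.one_le_rpow h1 hθ0.le
    linarith
  · push Not at h1
    have hex : ∃ N : ℕ, (1/4:ℝ)^N ≤ t := by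
      obtain ⟨N, hN⟩ := exists_pow_lt_of_lt_one ht (by norm_num : (1/4:ℝ) < 1)
      exact ⟨N, hN.le⟩
    classical
    set N := Nat.find hex with hNdef
    have hN : (1/4:ℝ)^N ≤ t := Nat.find_spec hex
    have hNlt : ∀ k, k < N → t < (1/4:ℝ)^k := fun k hk => not_le.1 (Nat.find_min hex hk)
    have h2 := KF_le iota t ht.le x (mk _ (trunc_tendsto x N))
    have h3 : ‖x - iota (mk _ (trunc_tendsto x N))‖ ≤ t ^ θ := by
      rw [c0_norm_le _ hsq.le]
      intro k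
      show ‖x k - (((1/4:ℝ)^k : ℝ) : ℂ) * (if k < N then (((4:ℝ)^k : ℝ) : ℂ) * x k else 0)‖ ≤ _
      by_cases hk : k < N
      · rw [if_pos hk, ← mul_assoc, ← Complex.ofReal_mul, ← mul_pow]
        norm_num
        exact hsq.le
      · rw [if_neg hk, mul_zero, sub_zero]
        refine (hx k).trans ?_
        refine Real.rpow_le_rpow (wt_pos k).le (le_trans ?_ hN) hθ0.le
        exact pow_le_pow_of_le_one (by norm_num) (by norm_num) (not_lt.1 hk)
    have h4 : ‖mk _ (trunc_tendsto x N)‖ ≤ t ^ (θ - 1) := by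
      rw [c0_norm_le _ (Real.rpow_nonneg ht.le _)]
      intro k
      rw [mk_apply]
      by_cases hk : k < N
      · rw [if_pos hk, norm_mul, Complex.norm_real, Real.norm_of_nonneg (by positivity)]
        have hw := wt_pos k
        calc (4:ℝ)^k * ‖x k‖ ≤ 4^k * ((1/4:ℝ)^k) ^ θ :=
              mul_le_mul_of_nonneg_left (hx k) (by positivity)
          _ = ((1/4:ℝ)^k) ^ (θ - 1) := by
              rw [Real.rpow_sub hw, Real.rpow_one, eq_div_iff hw.ne']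
              have : (4:ℝ)^k * (1/4:ℝ)^k = 1 := by rw [← mul_pow]; norm_num
              linear_combination ((1/4:ℝ)^k) ^ θ * this
          _ ≤ t ^ (θ - 1) :=
              Real.rpow_le_rpow_of_nonpos ht (hNlt k hk).le (by linarith)
      · rw [if_neg hk, norm_zero]
        exact Real.rpow_nonneg ht.le _
    have h5 : t * ‖mk _ (trunc_tendsto x N)‖ ≤ t ^ θ := by
      calc t * ‖mk _ (trunc_tendsto x N)‖ ≤ t * t ^ (θ - 1) := mul_le_mul_of_nonneg_left h4 ht.le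
        _ = t ^ θ := by
            rw [Real.rpow_sub ht, Real.rpow_one]
            field_simp
    linarith

lemma norm_le_of_K (θ : ℝ) (x : C0) (C : ℝ) (h : ∀ t : ℝ, 0 < t → KF iota t x ≤ C * t ^ θ) :
    kNorm iota θ ∞ x ≤ ENNReal.ofReal C := by
  rw [kNorm, eLpNorm_exponent_top]
  apply eLpNormEssSup_le_of_ae_bound
  filter_upwards [mu_ae_pos] with t ht
  have h2 : 0 < t ^ (-θ) := Real.rpow_pos_of_pos ht _
  rw [Real.norm_of_nonneg (mul_nonneg h2.le (KF_nonneg iota t ht.le x))]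
  calc t ^ (-θ) * KF iota t x ≤ t ^ (-θ) * (C * t ^ θ) :=
        mul_le_mul_of_nonneg_left (h t ht) h2.le
    _ = C * (t ^ (-θ) * t ^ θ) := by ring
    _ = C := by rw [← Real.rpow_add ht]; norm_num

lemma a_tendsto (θ : ℝ) (hθ : 0 < θ) (c : ℝ) :
    Filter.Tendsto (fun k : ℕ => if k = 0 then (c:ℂ) else ((((1/4:ℝ)^k) ^ θ : ℝ) : ℂ))
      Filter.atTop (nhds 0) := by
  have h : Filter.Tendsto (fun k : ℕ => ((((1/4:ℝ)^k) ^ θ : ℝ) : ℂ)) Filter.atTop (nhds 0) := by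
    rw [tendsto_zero_iff_norm_tendsto_zero]
    have h1 := tendsto_pow_atTop_nhds_zero_of_lt_one (by norm_num : (0:ℝ) ≤ 1/4)
      (by norm_num : (1/4:ℝ) < 1)
    have h2 := h1.rpow_const (p := θ) (Or.inr hθ.le)
    rw [Real.zero_rpow hθ.ne'] at h2
    refine h2.congr (fun k => ?_)
    rw [Complex.norm_real, Real.norm_of_nonneg (Real.rpow_nonneg (wt_pos k).le _)]
  refine h.congr' ?_
  filter_upwards [Filter.eventually_ge_atTop 1] with k hk
  rw [if_neg (by omega)]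

/-- The sequence `(c, 4^{-θ}, 4^{-2θ}, ...)`. -/
noncomputable def seqA (θ : ℝ) (hθ : 0 < θ) (c : ℝ) : C0 := mk _ (a_tendsto θ hθ c)

lemma seqA_zero (θ : ℝ) (hθ : 0 < θ) (c : ℝ) : seqA θ hθ c 0 = (c:ℂ) := rfl

lemma seqA_pos (θ : ℝ) (hθ : 0 < θ) (c : ℝ) (k : ℕ) (hk : k ≠ 0) :
    seqA θ hθ c k = ((((1/4:ℝ)^k) ^ θ : ℝ) : ℂ) := by
  show (if k = 0 then (c:ℂ) else ((((1/4:ℝ)^k) ^ θ : ℝ) : ℂ)) = _
  rw [if_neg hk]

lemma seqA_bound (θ : ℝ) (hθ : 0 < θ) (c : ℝ) (hc : |c| ≤ 1) (k : ℕ) :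
    ‖seqA θ hθ c k‖ ≤ ((1/4:ℝ)^k) ^ θ := by
  by_cases hk : k = 0
  · subst hk
    rw [seqA_zero, Complex.norm_real, Real.norm_eq_abs]
    simpa using hc
  · rw [seqA_pos θ hθ c k hk, Complex.norm_real,
      Real.norm_of_nonneg (Real.rpow_nonneg (wt_pos k).le _)]

lemma seqA_sub (θ : ℝ) (hθ : 0 < θ) (hθ1 : θ < 1) (c t : ℝ) (hc : 0 ≤ c) (ht : 0 < t) :
    KF iota t (seqA θ hθ c - seqA θ hθ 0) ≤ c * t ^ θ := by
  have hsub : ∀ k, (seqA θ hθ c - seqA θ hθ 0) k = if k = 0 then (c:ℂ) else 0 := by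
    intro k
    show seqA θ hθ c k - seqA θ hθ 0 k = _
    by_cases hk : k = 0
    · subst hk
      rw [seqA_zero, seqA_zero]
      simp
    · rw [seqA_pos θ hθ c k hk, seqA_pos θ hθ 0 k hk, if_neg hk, sub_self]
  have hnorm : ‖seqA θ hθ c - seqA θ hθ 0‖ ≤ c := by
    rw [c0_norm_le _ hc]
    intro k
    rw [hsub]
    by_cases hk : k = 0
    · rw [if_pos hk, Complex.norm_real, Real.norm_of_nonneg hc]
    · rw [if_neg hk, norm_zero]
      exact hc
  by_cases h1 : 1 ≤ t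
  · have h2 := KF_le_norm iota t ht.le (seqA θ hθ c - seqA θ hθ 0)
    have h4 : 1 ≤ t ^ θ := Real.one_le_rpow h1 hθ.le
    nlinarith
  · push Not at h1
    have h2 := KF_le iota t ht.le (seqA θ hθ c - seqA θ hθ 0) (seqA θ hθ c - seqA θ hθ 0)
    have h3 : ‖(seqA θ hθ c - seqA θ hθ 0) - iota (seqA θ hθ c - seqA θ hθ 0)‖ ≤ 0 := by
      rw [c0_norm_le _ le_rfl]
      intro k
      show ‖(seqA θ hθ c - seqA θ hθ 0) k
        - (((1/4:ℝ)^k : ℝ) : ℂ) * (seqA θ hθ c - seqA θ hθ 0) k‖ ≤ 0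
      rw [hsub]
      by_cases hk : k = 0
      · subst hk
        simp
      · rw [if_neg hk]
        simp
    have h4 : t ≤ t ^ θ := by
      calc t = t ^ (1:ℝ) := (Real.rpow_one t).symm
        _ ≤ t ^ θ := Real.rpow_le_rpow_of_exponent_ge ht h1.le hθ1.le
    have h5 : t * ‖seqA θ hθ c - seqA θ hθ 0‖ ≤ t * c := mul_le_mul_of_nonneg_left hnorm ht.le
    nlinarith

theorem not_continuous_top (θ : ℝ) (hθ : 0 < θ) (hθ1 : θ < 1) : ¬ ContinuousK iota iota U θ ∞ := by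
  intro H
  obtain ⟨δ, hδ, hb⟩ := H (seqA θ hθ 0)
    (lt_of_le_of_lt (norm_le_of_K θ (seqA θ hθ 0) 2
      (fun t ht => K_upper θ hθ hθ1 _ (seqA_bound θ hθ 0 (by norm_num)) t ht)) ENNReal.ofReal_lt_top)
    (ENNReal.ofReal (1/8)) (by simp)
  -- choose c
  obtain ⟨c, hc0, hc1, hcδ⟩ : ∃ c : ℝ, 0 < c ∧ c ≤ 1 ∧ ENNReal.ofReal c < δ := by
    obtain ⟨d, hd0, hd⟩ := ENNReal.lt_iff_exists_real_btwn.1 hδ
    refine ⟨min d 1, ?_, min_le_right _ _, ?_⟩
    · have : 0 < d := by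
        have := hd.1
        rwa [ENNReal.ofReal_pos] at this
      exact lt_min this one_pos
    · exact lt_of_le_of_lt (ENNReal.ofReal_le_ofReal (min_le_left _ _)) hd.2
  have h := hb (seqA θ hθ c)
    (lt_of_le_of_lt (norm_le_of_K θ (seqA θ hθ c) 2
      (fun t ht => K_upper θ hθ hθ1 _ (seqA_bound θ hθ c (by rw [abs_of_pos hc0]; exact hc1)) t ht))
      ENNReal.ofReal_lt_top)
    (lt_of_le_of_lt (norm_le_of_K θ _ c (fun t ht => seqA_sub θ hθ hθ1 c t hc0.le ht)) hcδ)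
  rw [kNorm, eLpNorm_exponent_top] at h
  -- pick k large
  have hr0 : 0 < (1/4:ℝ) ^ θ := Real.rpow_pos_of_pos (by norm_num) _
  have hr1 : (1/4:ℝ) ^ θ < 1 := Real.rpow_lt_one (by norm_num) (by norm_num) hθ
  have hpw : ∀ k : ℕ, ((1/4:ℝ)^k) ^ θ = ((1/4:ℝ) ^ θ) ^ k := by
    intro k
    rw [← Real.rpow_natCast, ← Real.rpow_natCast, ← Real.rpow_mul (by norm_num),
      ← Real.rpow_mul (by norm_num), mul_comm]
  obtain ⟨k, hk⟩ := exists_pow_lt_of_lt_one hc0 hr1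
  have hk' : ((1/4:ℝ)^(k+1)) ^ θ < c := by
    rw [hpw]
    exact lt_of_le_of_lt (pow_le_pow_of_le_one hr0.le hr1.le (by omega)) hk
  set w : ℝ := (1/4:ℝ)^(k+1) with hw
  have hwpos : 0 < w := wt_pos _
  have hwθ : 0 < w ^ θ := Real.rpow_pos_of_pos hwpos θ
  have hcoord : ‖(U (seqA θ hθ c) - U (seqA θ hθ 0)) (k+1)‖ = w ^ θ := by
    show ‖U (seqA θ hθ c) (k+1) - U (seqA θ hθ 0) (k+1)‖ = _
    rw [U_apply, U_apply, seqA_zero, seqA_zero, seqA_pos θ hθ c (k+1) (by omega),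
      seqA_pos θ hθ 0 (k+1) (by omega), ← hw]
    rw [Complex.norm_real, Complex.norm_real, Complex.norm_real,
      Real.norm_of_nonneg hwθ.le, Real.norm_of_nonneg hc0.le,
      norm_zero, min_eq_left hk'.le, min_eq_right hwθ.le, ← Complex.ofReal_sub,
      Complex.norm_real, sub_zero, Real.norm_of_nonneg hwθ.le]
  have hae := enorm_ae_le_eLpNormEssSup (fun t : ℝ => t ^ (-θ) *
    KF iota t (U (seqA θ hθ c) - U (seqA θ hθ 0))) mu
  have hpos := mu_Ioo_pos w (4 * w) hwpos (by linarith)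
  apply hpos
  have hae2 : ∀ᵐ t ∂mu, t ∉ Set.Ioo w (4 * w) := by
    filter_upwards [hae] with t ht hmem
    have h1 := lt_of_le_of_lt ht h
    have ht0 : 0 < t := hwpos.trans hmem.1
    have h3 : w ^ θ ≤ KF iota t (U (seqA θ hθ c) - U (seqA θ hθ 0)) := by
      rw [← hcoord]
      exact K_ge t _ (k+1) hmem.1.le
    have h4 : 0 < t ^ (-θ) := Real.rpow_pos_of_pos ht0 _
    rw [← ofReal_norm, Real.norm_of_nonneg (mul_nonneg h4.le (KF_nonneg iota t ht0.le _)),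
      ENNReal.ofReal_lt_ofReal_iff (by norm_num)] at h1
    have h5 : (4 * w) ^ (-θ) ≤ t ^ (-θ) :=
      Real.rpow_le_rpow_of_nonpos ht0 hmem.2.le (by linarith)
    have h6 : (4 * w) ^ (-θ) * w ^ θ = (4:ℝ) ^ (-θ) := by
      rw [Real.mul_rpow (by norm_num) hwpos.le, mul_assoc, ← Real.rpow_add hwpos]
      norm_num
    have h7 : (1:ℝ)/4 ≤ (4:ℝ) ^ (-θ) := by
      calc (1:ℝ)/4 = (4:ℝ) ^ (-1:ℝ) := by rw [Real.rpow_neg_one]; norm_num
        _ ≤ (4:ℝ) ^ (-θ) := Real.rpow_le_rpow_of_exponent_le (by norm_num) (by linarith)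
    have h8 : (4 * w) ^ (-θ) * w ^ θ ≤ t ^ (-θ) * w ^ θ := mul_le_mul_of_nonneg_right h5 hwθ.le
    have h9 : t ^ (-θ) * w ^ θ ≤ t ^ (-θ) * KF iota t (U (seqA θ hθ c) - U (seqA θ hθ 0)) :=
      mul_le_mul_of_nonneg_left h3 h4.le
    linarith
  rw [ae_iff] at hae2
  have hset : {t : ℝ | ¬ t ∉ Set.Ioo w (4 * w)} = Set.Ioo w (4 * w) := by
    ext t
    exact not_not
  rw [hset] at hae2
  exact hae2

/-- Full picture for Q1. (1) If `p < ∞`, then (H) alone (Lipschitz `A0 → B0`, bounded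
`A1 → B1`, no continuity on `A1` needed) implies that `U` is continuous between the K-method
spaces, for every `θ` in `(0,1)`. (2) If `p = ∞` the answer to Q1 is negative for every `θ`: one
complex Banach couple and one `U` with `M0 = M1 = 1`, continuous on `A1`, which is discontinuous
on `(A0,A1)_{θ,∞;K}` for every `θ` in `(0,1)`. -/
theorem result :
    (∀ (A0 A1 B0 B1 : Type)
      [NormedAddCommGroup A0] [NormedSpace ℂ A0] [CompleteSpace A0]
      [NormedAddCommGroup A1] [NormedSpace ℂ A1] [CompleteSpace A1]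
      [NormedAddCommGroup B0] [NormedSpace ℂ B0] [CompleteSpace B0]
      [NormedAddCommGroup B1] [NormedSpace ℂ B1] [CompleteSpace B1]
      (ιA : A1 →L[ℂ] A0) (ιB : B1 →L[ℂ] B0),
      Function.Injective ιA → Function.Injective ιB →
      ∀ (U : A0 → B0) (V : A1 → B1) (M0 M1 : ℝ),
        (∀ a b : A0, ‖U a - U b‖ ≤ M0 * ‖a - b‖) →
        (∀ x : A1, U (ιA x) = ιB (V x)) →
        (∀ x : A1, ‖V x‖ ≤ M1 * ‖x‖) →
        ∀ θ : ℝ, 0 < θ → θ < 1 → ∀ p : ℝ≥0∞, 1 ≤ p → p < ∞ → ContinuousK ιA ιB U θ p) ∧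
    (∃ (A0 A1 : Type) (_ : NormedAddCommGroup A0) (_ : NormedSpace ℂ A0) (_ : CompleteSpace A0)
      (_ : NormedAddCommGroup A1) (_ : NormedSpace ℂ A1) (_ : CompleteSpace A1)
      (ι : A1 →L[ℂ] A0) (U : A0 → A0) (V : A1 → A1),
      Function.Injective ι ∧
      (∀ a b : A0, ‖U a - U b‖ ≤ ‖a - b‖) ∧
      (∀ x : A1, U (ι x) = ι (V x)) ∧
      (∀ x : A1, ‖V x‖ ≤ ‖x‖) ∧
      Continuous V ∧
      ∀ θ : ℝ, 0 < θ → θ < 1 → ¬ ContinuousK ι ι U θ ∞) := by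
  refine ⟨?_, ?_⟩
  · intro A0 A1 B0 B1 _ _ _ _ _ _ _ _ _ _ _ _ ιA ιB _ _ U V M0 M1 h0 hUV h1 θ _ _ p hp hpt
    exact continuous_of_lt_top ιA ιB U V M0 M1 h0 hUV h1 θ p hp hpt.ne
  · exact ⟨C0, C0, inferInstance, inferInstance, inferInstance, inferInstance, inferInstance,
      inferInstance, iota, U, V, iota_injective, U_lip, UV, V_bound, V_cont,
      fun θ h0 h1 => not_continuous_top θ h0 h1⟩

end Pool.Agent.Results.MP_37b4fc_an.FullPicture
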